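import Pool.Agent.Y549.SP.BAD3
import Pool.Agent.Y549.SP.BL
import Pool.Agent.Y549.SP.LS3
import Pool.Agent.Y549.SP.NUM2
import Pool.Agent.Y549.SP.PJ

/-! Few squarefree numbers have biased symbols on one of finitely many sets of primes, at one of the
scales between a power of the logarithm and a small power. -/

set_option autoImplicit false

namespace Pool.Agent.Q11.LQ

open Finset Filter Topology Pool.Agent.Y549.SP

theorem bad3 : S_BAD3 :=
  Pool.Agent.Y549.SP.BAD3.main Pool.Agent.Y549.SP.BL.main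
    (Pool.Agent.Y549.SP.LS3.main Pool.Agent.Y549.SP.PJ.main) Pool.Agent.Y549.SP.NUM2.main

/-- Chebyshev's lower bound -/
theorem cheb : ∃ y₀ : ℕ, ∀ y : ℕ, y₀ ≤ y → 2 ≤ y ∧
    (y : ℝ) / (4 * Real.log y) ≤ (Nat.primeCounting y : ℝ) := by
  have h2 : ∀ᶠ N : ℕ in atTop, Real.log ((N : ℝ) + 1) ≤ N / 4 := by
    have e1 : Tendsto (fun x : ℝ => Real.log x / x ^ (1 : ℝ)) atTop (𝓝 0) :=
      (isLittleO_log_rpow_atTop (by norm_num)).tendsto_div_nhds_zero
    have e2 := e1.comp ((tendsto_natCast_atTop_atTop (R := ℝ)).atTop_add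
      (tendsto_const_nhds (x := (1 : ℝ))))
    filter_upwards [e2.eventually (gt_mem_nhds (show (0 : ℝ) < 1 / 8 by norm_num)),
      eventually_ge_atTop 1] with N hN hN1
    simp only [Function.comp_apply, Real.rpow_one] at hN
    have hp : (0 : ℝ) < (N : ℝ) + 1 := by positivity
    rw [div_lt_iff₀ hp] at hN
    have : (1 : ℝ) ≤ N := by exact_mod_cast hN1
    linarith
  obtain ⟨y₀, hy₀⟩ := eventually_atTop.1 (h2.and (eventually_ge_atTop 2))
  refine ⟨y₀, fun N hN => ?_⟩
  obtain ⟨h3, h4⟩ := hy₀ N hN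
  refine ⟨h4, ?_⟩
  have h5 := Chebyshev.pi_ge N
  have hN : (2 : ℝ) ≤ N := by exact_mod_cast h4
  have hlog : 0 < Real.log N := Real.log_pos (by linarith)
  have hl2 : (1 / 2 : ℝ) < Real.log 2 := by
    have := Real.log_two_gt_d9
    linarith
  have h6 : (N : ℝ) / 4 ≤ N * Real.log 2 - Real.log (N + 1) := by nlinarith
  refine le_trans ?_ h5
  rw [div_le_div_iff₀ (by positivity) hlog]
  nlinarith

open Classical in
/-- the squarefree numbers up to `X` with a biased symbol at a scale between `(log X)^A` and `X^c` -/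
noncomputable def biased {n : ℕ} (D : ℤ) (Q : Fin n → Set ℕ) (A c η : ℝ) (X : ℕ) : Finset ℕ :=
  (Pool.Agent.Y549.SP.sq X).filter fun m => ∃ y : ℕ, Real.log X ^ A ≤ y ∧ (y : ℝ) ≤ (X : ℝ) ^ c ∧
    ∃ i, η * (Nat.primeCounting y : ℝ) < |(sd (Q i) D m y : ℝ)|

theorem sd_le (Q : Set ℕ) (D : ℤ) (m y : ℕ) : |(sd Q D m y : ℝ)| ≤ ((oq Q y).card : ℝ) := by
  unfold sd
  push_cast
  refine (Finset.abs_sum_le_sum_abs _ _).trans ?_
  refine (Finset.sum_le_sum (g := fun _ => (1 : ℝ)) fun p _ => ?_).trans ?_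
  · rcases jacobiSym.trichotomy (D * m) p with h | h | h <;> rw [h] <;> norm_num
  · rw [Finset.sum_const, nsmul_eq_mul, mul_one]

theorem few (n : ℕ) (A η ε : ℝ) (hA : 1 < A) (hη : 0 < η) (hη1 : η ≤ 1) (hε : 0 < ε) :
    ∃ c K : ℝ, 0 < c ∧ 0 < K ∧ ∀ (D : ℤ) (Q : Fin n → Set ℕ) (X : ℕ), 1 ≤ X →
      ((biased D Q A c η X).card : ℝ) ≤ K * (X : ℝ) ^ (1 / A + ε) := by
  classical
  obtain ⟨c₀, K₀, hc₀, hK₀, hmain⟩ := bad3 A 1 (η / 4) η (ε / 2) one_pos le_rfl (by linarith)
    (by positivity) (by linarith) hη hη1 (by positivity)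
  obtain ⟨y₀, hy₀⟩ := cheb
  -- the threshold
  have hA0 : 0 < A := by linarith
  obtain ⟨X₀, hX₀⟩ : ∃ X₀ : ℕ, ∀ X : ℕ, X₀ ≤ X → (y₀ : ℝ) < Real.log X ^ A := by
    have h1 : Tendsto (fun X : ℕ => Real.log X ^ A) atTop atTop :=
      (tendsto_rpow_atTop hA0).comp (Real.tendsto_log_atTop.comp tendsto_natCast_atTop_atTop)
    exact eventually_atTop.1 (h1.eventually_gt_atTop _)
  refine ⟨min c₀ (ε / 2), n * K₀ * 2 + X₀ + 1, lt_min hc₀ (by positivity), by positivity,
    fun D Q X hX => ?_⟩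
  have hXR : (1 : ℝ) ≤ X := by exact_mod_cast hX
  have hXp : (1 : ℝ) ≤ (X : ℝ) ^ (1 / A + ε) := Real.one_le_rpow hXR (by positivity)
  by_cases hXX : X₀ ≤ X
  · -- large X
    set c := min c₀ (ε / 2) with hc
    set Y : ℕ := ⌊(X : ℝ) ^ c⌋₊ with hY
    have hsub : biased D Q A c η X ⊆ ((Finset.range (Y + 1)).filter
        (fun y : ℕ => Real.log X ^ A ≤ y)).biUnion fun y =>
          (Finset.univ : Finset (Fin n)).biUnion fun i =>
            if η / 4 * (y : ℝ) ^ (1 : ℝ) ≤ (oq (Q i) y).card * Real.log y then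
              (Pool.Agent.Y549.SP.sq X).filter (fun m => η * (oq (Q i) y).card ≤ (|sd (Q i) D m y| : ℝ))
            else ∅ := by
      intro m hm
      obtain ⟨hm1, y, hy1, hy2, i, hi⟩ := Finset.mem_filter.1 hm
      rw [Finset.mem_biUnion]
      refine ⟨y, Finset.mem_filter.2 ⟨Finset.mem_range.2 (Nat.lt_succ_of_le
        (Nat.le_floor hy2)), hy1⟩, ?_⟩
      rw [Finset.mem_biUnion]
      refine ⟨i, Finset.mem_univ _, ?_⟩
      have hyy : y₀ ≤ y := by
        have := (hX₀ X hXX).trans_le hy1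
        exact_mod_cast this.le
      obtain ⟨hy2', hch⟩ := hy₀ y hyy
      have hyR : (2 : ℝ) ≤ y := by exact_mod_cast hy2'
      have hlog : 0 < Real.log y := Real.log_pos (by linarith)
      have hcard : ((oq (Q i) y).card : ℝ) ≤ (Nat.primeCounting y : ℝ) := by
        have h1 : (oq (Q i) y) ⊆ (Finset.range (y + 1)).filter Nat.Prime := by
          intro p hp
          unfold oq at hp
          obtain ⟨a, b⟩ := Finset.mem_filter.1 hp
          exact Finset.mem_filter.2 ⟨a, b.1⟩
        have h2 := Finset.card_le_card h1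
        rw [Nat.primeCounting, Nat.primeCounting', Nat.count_eq_card_filter_range]
        exact_mod_cast h2
      split_ifs with hcase
      · refine Finset.mem_filter.2 ⟨hm1, ?_⟩
        have : η * ((oq (Q i) y).card : ℝ) ≤ η * (Nat.primeCounting y : ℝ) :=
          mul_le_mul_of_nonneg_left hcard hη.le
        exact_mod_cast this.trans hi.le
      · exfalso
        rw [not_le, Real.rpow_one] at hcase
        have h1 := sd_le (Q i) D m y
        have h2 : ((oq (Q i) y).card : ℝ) < η * (Nat.primeCounting y : ℝ) := by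
          have h3 : ((oq (Q i) y).card : ℝ) < η / 4 * y / Real.log y := by
            rwa [lt_div_iff₀ hlog]
          refine h3.trans_le ?_
          calc η / 4 * y / Real.log y = η * (y / (4 * Real.log y)) := by
                field_simp
            _ ≤ _ := mul_le_mul_of_nonneg_left hch hη.le
        linarith
    have hcardle : ((biased D Q A c η X).card : ℝ) ≤
        ∑ y ∈ (Finset.range (Y + 1)).filter (fun y : ℕ => Real.log X ^ A ≤ y),
          ∑ i : Fin n, K₀ * (X : ℝ) ^ (1 / A + ε / 2) := by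
      have h1 := (Finset.card_le_card hsub).trans Finset.card_biUnion_le
      have h2 : ((biased D Q A c η X).card : ℝ) ≤
          ∑ y ∈ (Finset.range (Y + 1)).filter (fun y : ℕ => Real.log X ^ A ≤ y),
          (((Finset.univ : Finset (Fin n)).biUnion fun i =>
            if η / 4 * (y : ℝ) ^ (1 : ℝ) ≤ (oq (Q i) y).card * Real.log y then
              (Pool.Agent.Y549.SP.sq X).filter (fun m => η * (oq (Q i) y).card ≤ (|sd (Q i) D m y| : ℝ))
            else ∅).card : ℝ) := by exact_mod_cast h1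
      refine h2.trans (Finset.sum_le_sum fun y hy => ?_)
      have h3 : (((Finset.univ : Finset (Fin n)).biUnion fun i =>
            if η / 4 * (y : ℝ) ^ (1 : ℝ) ≤ (oq (Q i) y).card * Real.log y then
              (Pool.Agent.Y549.SP.sq X).filter (fun m => η * (oq (Q i) y).card ≤ (|sd (Q i) D m y| : ℝ))
            else ∅).card : ℝ) ≤ ∑ i : Fin n, ((if η / 4 * (y : ℝ) ^ (1 : ℝ) ≤
              (oq (Q i) y).card * Real.log y then
              (Pool.Agent.Y549.SP.sq X).filter (fun m => η * (oq (Q i) y).card ≤ (|sd (Q i) D m y| : ℝ))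
            else ∅).card : ℝ) := by exact_mod_cast Finset.card_biUnion_le
      refine h3.trans (Finset.sum_le_sum fun i _ => ?_)
      split_ifs with hcase
      · obtain ⟨hy1, hy2⟩ := Finset.mem_filter.1 hy
        have hyY : (y : ℝ) ≤ (X : ℝ) ^ c := by
          have h4 : (y : ℝ) ≤ Y := by exact_mod_cast Nat.lt_succ_iff.1 (Finset.mem_range.1 hy1)
          exact h4.trans (Nat.floor_le (by positivity))
        have h5 : (Real.log X / A) ^ A ≤ y := by
          refine le_trans ?_ hy2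
          have hl : 0 ≤ Real.log X := Real.log_nonneg hXR
          exact Real.rpow_le_rpow (div_nonneg hl hA0.le) (div_le_self hl hA.le) hA0.le
        have h6 : (y : ℝ) ≤ (X : ℝ) ^ c₀ :=
          hyY.trans (Real.rpow_le_rpow_of_exponent_le hXR (min_le_left _ _))
        have h7 := hmain D (Q i) X y hX h5 h6 hcase
        have e1 : (1 : ℝ) - 1 + 1 / A + ε / 2 = 1 / A + ε / 2 := by ring
        rw [e1] at h7
        exact h7
      · rw [Finset.card_empty, Nat.cast_zero]
        positivity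
    refine hcardle.trans ?_
    simp only [Finset.sum_const, nsmul_eq_mul, Finset.card_univ, Fintype.card_fin]
    have hYc : (((Finset.range (Y + 1)).filter (fun y : ℕ => Real.log X ^ A ≤ y)).card : ℝ) ≤
        2 * (X : ℝ) ^ (ε / 2) := by
      have h1 : (((Finset.range (Y + 1)).filter (fun y : ℕ => Real.log X ^ A ≤ y)).card : ℝ) ≤
          (Y : ℝ) + 1 := by
        have := Finset.card_filter_le (Finset.range (Y + 1)) (fun y : ℕ => Real.log X ^ A ≤ y)
        rw [Finset.card_range] at this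
        exact_mod_cast this
      have h2 : (Y : ℝ) ≤ (X : ℝ) ^ (ε / 2) := (Nat.floor_le (by positivity)).trans
        (Real.rpow_le_rpow_of_exponent_le hXR (min_le_right _ _))
      have h3 : (1 : ℝ) ≤ (X : ℝ) ^ (ε / 2) := Real.one_le_rpow hXR (by positivity)
      linarith
    have hsplit : (X : ℝ) ^ (1 / A + ε) = (X : ℝ) ^ (ε / 2) * (X : ℝ) ^ (1 / A + ε / 2) := by
      rw [← Real.rpow_add (by linarith)]
      congr 1
      ring
    have hP : 0 ≤ (n : ℝ) * (K₀ * (X : ℝ) ^ (1 / A + ε / 2)) := by positivity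
    calc (((Finset.range (Y + 1)).filter (fun y : ℕ => Real.log X ^ A ≤ y)).card : ℝ) *
          ((n : ℝ) * (K₀ * (X : ℝ) ^ (1 / A + ε / 2))) ≤
          2 * (X : ℝ) ^ (ε / 2) * ((n : ℝ) * (K₀ * (X : ℝ) ^ (1 / A + ε / 2))) :=
          mul_le_mul_of_nonneg_right hYc hP
      _ = n * K₀ * 2 * (X : ℝ) ^ (1 / A + ε) := by rw [hsplit]; ring
      _ ≤ _ := by
          refine mul_le_mul_of_nonneg_right ?_ (by positivity)
          have : (0 : ℝ) ≤ X₀ := Nat.cast_nonneg _
          linarith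
  · -- small X
    push Not at hXX
    have h1 : ((biased D Q A (min c₀ (ε / 2)) η X).card : ℝ) ≤ X := by
      have h2 := Finset.card_filter_le (Pool.Agent.Y549.SP.sq X) (fun m => ∃ y : ℕ, Real.log X ^ A ≤ y ∧
        (y : ℝ) ≤ (X : ℝ) ^ (min c₀ (ε / 2)) ∧
        ∃ i, η * (Nat.primeCounting y : ℝ) < |(sd (Q i) D m y : ℝ)|)
      have h3 : (Pool.Agent.Y549.SP.sq X).card ≤ X := by
        unfold Pool.Agent.Y549.SP.sq
        refine (Finset.card_filter_le _ _).trans ?_
        rw [Nat.card_Icc]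
        omega
      unfold biased
      exact_mod_cast h2.trans h3
    have h2 : (X : ℝ) ≤ X₀ := by exact_mod_cast hXX.le
    have h3 : (0 : ℝ) ≤ n * K₀ * 2 := by positivity
    calc ((biased D Q A (min c₀ (ε / 2)) η X).card : ℝ) ≤ X₀ := h1.trans h2
      _ ≤ (n * K₀ * 2 + X₀ + 1) * 1 := by linarith
      _ ≤ _ := mul_le_mul_of_nonneg_left hXp (by positivity)

end Pool.Agent.Q11.LQ
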