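import Pool.Agent.Q11.LQ.Few
import Pool.Agent.Q11.ES.Main

/-! The law of the twists by rational integers at one scale, in terms of the symbol sums over sets of
primes. -/

set_option autoImplicit false
set_option linter.unusedSectionVars false

namespace Pool.Agent.Q11.LQ

open NumberField IsDedekindDomain Filter Topology Pool.Agent.H341R2
open Pool.Agent.W529.ST Pool.Agent.W353.TP Pool.Agent.Q11.ES Pool.Agent.Y549.SP
open Pool.Agent.H921R2.TatePole (nm two_le_nm R hc R_eq_hc R_le kerPrime hom_finite below)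

section
variable {K : Type} [Field K] [NumberField K]

/-- the classes of the twist by the integer `m`, exactly, at the primes outside `Z` not dividing `2m` -/
def TwZ {S : Type} (Z : Finset (HeightOneSpectrum (𝓞 K))) (m : ℤ) (σ : S → S)
    (x c : HeightOneSpectrum (𝓞 K) → S) : Prop :=
  ∀ v, v ∉ Z → ((2 * m : ℤ) : 𝓞 K) ∉ v.asIdeal →
    (IsSquare (Ideal.Quotient.mk v.asIdeal ((m : ℤ) : 𝓞 K)) → c v = x v) ∧
    (¬ IsSquare (Ideal.Quotient.mk v.asIdeal ((m : ℤ) : 𝓞 K)) → c v = σ (x v))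

theorem twZ_ker {S : Type} {Z : Finset (HeightOneSpectrum (𝓞 K))} {m : ℤ} {σ : S → S}
    {x c : HeightOneSpectrum (𝓞 K) → S} (hc : TwZ Z m σ x c) (p : Nat.Primes)
    (hp : ¬ ((p : ℕ) : ℤ) ∣ 2 * m) (u : 𝓞 K →+* ZMod (p : ℕ)) (hZ : (kerPrime p u).1.1 ∉ Z) :
    (jacobiSym m (p : ℕ) = 1 ∧ c (kerPrime p u).1.1 = x (kerPrime p u).1.1) ∨
    (jacobiSym m (p : ℕ) = -1 ∧ c (kerPrime p u).1.1 = σ (x (kerPrime p u).1.1)) := by
  have hpf : Fact (p : ℕ).Prime := ⟨p.2⟩
  have hm2 : ((2 * m : ℤ) : 𝓞 K) ∉ (kerPrime p u).1.1.asIdeal := by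
    intro h
    have h0 : u ((2 * m : ℤ) : 𝓞 K) = 0 := h
    rw [map_intCast, ZMod.intCast_zmod_eq_zero_iff_dvd] at h0
    exact hp h0
  have hm : ((m : ℤ) : ZMod (p : ℕ)) ≠ 0 := by
    rw [Ne, ZMod.intCast_zmod_eq_zero_iff_dvd]
    exact fun h => hp (h.mul_left 2)
  have hdw : Ideal.Quotient.mk (kerPrime p u).1.1.asIdeal ((m : ℤ) : 𝓞 K) ≠ 0 := by
    intro h
    have h0 : u ((m : ℤ) : 𝓞 K) = 0 := Ideal.Quotient.eq_zero_iff_mem.1 h
    rw [map_intCast] at h0
    exact hm h0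
  obtain ⟨h3, h4⟩ := hc _ hZ hm2
  have h5 : (chi ((m : ℤ) : 𝓞 K) (kerPrime p u).1.1 : ℤ) =
      quadraticChar (ZMod (p : ℕ)) (u ((m : ℤ) : 𝓞 K)) := chi_kerPrime _ p u
  rw [map_intCast] at h5
  have h6 : chi ((m : ℤ) : 𝓞 K) (kerPrime p u).1.1 = 1 ↔
      IsSquare (Ideal.Quotient.mk (kerPrime p u).1.1.asIdeal ((m : ℤ) : 𝓞 K)) :=
    quadraticChar_one_iff_isSquare hdw
  have h7 : jacobiSym m (p : ℕ) = quadraticChar (ZMod (p : ℕ)) ((m : ℤ) : ZMod (p : ℕ)) := by
    rw [← jacobiSym.legendreSym.to_jacobiSym]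
    rfl
  rw [h7]
  rcases quadraticChar_dichotomy hm with h | h
  · left
    exact ⟨h, h3 (h6.1 (by rw [h5, h]))⟩
  · right
    refine ⟨h, h4 fun hs => ?_⟩
    have := h6.2 hs
    rw [h5, h] at this
    norm_num at this

/-- means of functions with a small support -/
theorem Av_supp (N : ℕ) (φ : Nat.Primes → ℝ) (B : ℝ) (hφ : ∀ p, |φ p| ≤ B)
    (E : Finset Nat.Primes) (h : ∀ p, p ∉ E → φ p = 0) :
    |Av N φ| ≤ E.card * B / (Nat.primeCounting N : ℝ) := by
  classical
  unfold Av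
  rw [abs_div, abs_of_nonneg (Nat.cast_nonneg (Nat.primeCounting N) : (0 : ℝ) ≤ _)]
  refine div_le_div_of_nonneg_right ?_ (Nat.cast_nonneg _)
  refine (Finset.abs_sum_le_sum_abs _ _).trans ?_
  have e1 : ∑ p ∈ PR N, |φ p| = ∑ p ∈ (PR N).filter (fun p => p ∈ E), |φ p| := by
    refine (Finset.sum_filter_of_ne fun p _ hp => ?_).symm
    by_contra hc
    exact hp (by rw [h p hc, abs_zero])
  rw [e1]
  refine (Finset.sum_le_sum_of_subset_of_nonneg (t := E) (fun p hp => (Finset.mem_filter.1 hp).2)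
    fun p _ _ => abs_nonneg _).trans ?_
  refine (Finset.sum_le_sum fun p _ => hφ p).trans ?_
  rw [Finset.sum_const, nsmul_eq_mul]

/-- the number of prime divisors -/
theorem card_pf {n : ℕ} (hn : n ≠ 0) : (n.primeFactors.card : ℝ) ≤ 2 * Real.log n := by
  have h1 : 2 ^ n.primeFactors.card ≤ n := by
    calc 2 ^ n.primeFactors.card ≤ ∏ p ∈ n.primeFactors, p :=
          Finset.pow_card_le_prod _ _ _ fun p hp => (Nat.prime_of_mem_primeFactors hp).two_le
      _ ≤ n := Nat.le_of_dvd (Nat.pos_of_ne_zero hn) (Nat.prod_primeFactors_dvd n)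
  have h2 : ((2 : ℝ)) ^ n.primeFactors.card ≤ n := by exact_mod_cast h1
  have h3 := Real.log_le_log (by positivity) h2
  rw [Real.log_pow] at h3
  have hl2 : (1 / 2 : ℝ) < Real.log 2 := by
    have := Real.log_two_gt_d9
    linarith
  have h4 : (0 : ℝ) ≤ n.primeFactors.card := Nat.cast_nonneg _
  nlinarith

variable {S : Type} {ν : ℕ}

open Classical in
/-- the number of the homomorphisms whose class is in the cell `c` -/
noncomputable def bc (κ : S → Fin ν) (x : HeightOneSpectrum (𝓞 K) → S) (c : Fin ν)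
    (p : Nat.Primes) : ℕ :=
  (Finset.univ.filter fun u : 𝓞 K →+* ZMod (p : ℕ) => κ (x (kerPrime p u).1.1) = c).card

theorem bc_le (κ : S → Fin ν) (x : HeightOneSpectrum (𝓞 K) → S) (c : Fin ν) (p : Nat.Primes) :
    bc κ x c p ≤ Module.finrank ℚ K := by
  classical
  unfold bc
  refine (Finset.card_filter_le _ _).trans ?_
  rw [Finset.card_univ]
  exact card_hom_le p

/-- the primes with `j` homomorphisms in the cell `c` -/
def Qs (κ : S → Fin ν) (x : HeightOneSpectrum (𝓞 K) → S) (c : Fin ν) (j : ℕ) : Set ℕ :=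
  {p | ∃ hp : p.Prime, bc κ x c ⟨p, hp⟩ = j}

/-- the sum over the primes in terms of the sets `Qs` -/
theorem sum_bc (κ : S → Fin ν) (x : HeightOneSpectrum (𝓞 K) → S) (c : Fin ν) (m : ℤ) (N : ℕ)
    {B : ℝ} (hB : ∀ j ≤ Module.finrank ℚ K,
      |(∑ p ∈ oq (Qs κ x c j) N, (jacobiSym m p : ℝ))| ≤ B) :
    |∑ p ∈ PR N, (jacobiSym m (p : ℕ) : ℝ) * bc κ x c p| ≤
      ((Module.finrank ℚ K : ℝ) + 1) ^ 2 * (B + 1) := by
  classical
  set n := Module.finrank ℚ K with hn
  have hB0 : 0 ≤ B := (abs_nonneg _).trans (hB 0 (Nat.zero_le _))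
  have e1 : ∑ p ∈ PR N, (jacobiSym m (p : ℕ) : ℝ) * bc κ x c p =
      ∑ j ∈ Finset.range (n + 1), (j : ℝ) *
        ∑ p ∈ (PR N).filter (fun p => bc κ x c p = j), (jacobiSym m (p : ℕ) : ℝ) := by
    have h1 : ∀ p ∈ PR N, bc κ x c p ∈ Finset.range (n + 1) := fun p _ =>
      Finset.mem_range.2 (Nat.lt_succ_of_le (bc_le κ x c p))
    rw [← Finset.sum_fiberwise_of_maps_to h1]
    refine Finset.sum_congr rfl fun j _ => ?_
    rw [Finset.mul_sum]
    refine Finset.sum_congr rfl fun p hp => ?_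
    rw [(Finset.mem_filter.1 hp).2]
    ring
  have e2 : ∀ j ∈ Finset.range (n + 1),
      |∑ p ∈ (PR N).filter (fun p => bc κ x c p = j), (jacobiSym m (p : ℕ) : ℝ)| ≤ B + 1 := by
    intro j hj
    have hj' : j ≤ n := Nat.lt_succ_iff.1 (Finset.mem_range.1 hj)
    -- split off the prime two
    set U : Finset ℕ := ((PR N).filter (fun p => bc κ x c p = j)).map
      ⟨fun p : Nat.Primes => (p : ℕ), fun a b h => Subtype.ext h⟩ with hU
    have h1 : ∑ p ∈ (PR N).filter (fun p => bc κ x c p = j), (jacobiSym m (p : ℕ) : ℝ) =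
        ∑ q ∈ U, (jacobiSym m q : ℝ) := by
      rw [hU, Finset.sum_map]
      rfl
    have h2 : oq (Qs κ x c j) N = U.erase 2 := by
      ext q
      unfold oq
      rw [Finset.mem_filter, Finset.mem_erase, hU, Finset.mem_map]
      constructor
      · rintro ⟨h3, h4, h5, h6, h7⟩
        refine ⟨h5, ⟨q, h4⟩, Finset.mem_filter.2 ⟨mem_PR.2 ?_, h7⟩, rfl⟩
        exact Nat.lt_succ_iff.1 (Finset.mem_range.1 h3)
      · rintro ⟨h3, p, h4, rfl⟩
        obtain ⟨h5, h6⟩ := Finset.mem_filter.1 h4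
        exact ⟨Finset.mem_range.2 (Nat.lt_succ_of_le (mem_PR.1 h5)), p.2, h3, p.2, h6⟩
    rw [h1]
    have h3 := hB j hj'
    rw [h2] at h3
    by_cases h4 : 2 ∈ U
    · rw [← Finset.add_sum_erase _ _ h4]
      refine (abs_add_le _ _).trans ?_
      have h5 : |(jacobiSym m 2 : ℝ)| ≤ 1 := by
        rcases jacobiSym.trichotomy m 2 with h | h | h <;> rw [h] <;> norm_num
      linarith
    · rw [Finset.erase_eq_of_notMem h4] at h3
      linarith
  rw [e1]
  refine (Finset.abs_sum_le_sum_abs _ _).trans ?_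
  have e3 : ∀ j ∈ Finset.range (n + 1), |(j : ℝ) *
      ∑ p ∈ (PR N).filter (fun p => bc κ x c p = j), (jacobiSym m (p : ℕ) : ℝ)| ≤
      ((n : ℝ) + 1) * (B + 1) := by
    intro j hj
    rw [abs_mul, Nat.abs_cast]
    have h1 : (j : ℝ) ≤ n + 1 := by
      have := (Finset.mem_range.1 hj).le
      exact_mod_cast this
    exact mul_le_mul h1 (e2 j hj) (abs_nonneg _) (by positivity)
  refine (Finset.sum_le_sum e3).trans (le_of_eq ?_)
  rw [Finset.sum_const, Finset.card_range, nsmul_eq_mul]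
  push_cast
  ring

/-- **The law of a twist at one scale.** -/
theorem near (Z : Finset (HeightOneSpectrum (𝓞 K))) (A : ℝ) (hA : 1 < A) (ν k : ℕ) (hk : 1 ≤ k) :
    ∃ N₀ : ℕ, ∀ N : ℕ, N₀ ≤ N → ∀ (S : Type) [MetricSpace S] (κ : S → Fin ν),
      (∀ y z, κ y = κ z → dist y z ≤ 1 / (16 * k)) →
      ∀ (σ : S → S), LipschitzWith 1 σ →
      ∀ (x : HeightOneSpectrum (𝓞 K) → S) (m : ℤ) (c : HeightOneSpectrum (𝓞 K) → S),
      m ≠ 0 → Real.log (m.natAbs : ℝ) ≤ (N : ℝ) ^ (1 / A) → TwZ Z m σ x c →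
      (∀ (i : Fin ν) (j : ℕ), j ≤ Module.finrank ℚ K →
        |(∑ p ∈ oq (Qs κ x i j) N, (jacobiSym m p : ℝ))| ≤
          1 / (16 * k * ((ν : ℝ) + 1) * ((Module.finrank ℚ K : ℝ) + 1) ^ 2) *
            (Nat.primeCounting N : ℝ)) →
      ∀ f : S → ℝ, LipschitzWith 1 f → (∀ y, |f y| ≤ 1) →
        |mean K (fun v => f (c v)) N - mean K (fun v => (f (x v) + f (σ (x v))) / 2) N| <
          1 / k := by
  classical
  have hkR : (0 : ℝ) < k := by exact_mod_cast hk
  set n := Module.finrank ℚ K with hn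
  have hA0 : 0 < A := by linarith
  -- the quotient of the exceptional primes
  have h1 : Tendsto (fun N : ℕ => (3 + 2 * (N : ℝ) ^ (1 / A) + Z.card) * (3 * n) /
      (Nat.primeCounting N : ℝ)) atTop (𝓝 0) := by
    obtain ⟨y₀, hy₀⟩ := cheb
    have hθ : 0 < 1 - 1 / A := by
      rw [sub_pos, div_lt_one hA0]
      exact hA
    have e0 : Tendsto (fun x : ℝ => Real.log x / x ^ (1 - 1 / A)) atTop (𝓝 0) :=
      (isLittleO_log_rpow_atTop hθ).tendsto_div_nhds_zero
    have e1 : Tendsto (fun N : ℕ => (3 + 2 + (Z.card : ℝ)) * (3 * n) * 4 *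
        (Real.log (N : ℝ) / (N : ℝ) ^ (1 - 1 / A))) atTop (𝓝 0) := by
      have := (e0.comp (tendsto_natCast_atTop_atTop (R := ℝ))).const_mul
        ((3 + 2 + (Z.card : ℝ)) * (3 * n) * 4)
      rw [mul_zero] at this
      exact this
    refine squeeze_zero' (Eventually.of_forall fun N => by positivity) ?_ e1
    filter_upwards [eventually_ge_atTop y₀] with N hN
    obtain ⟨h2, h3⟩ := hy₀ N hN
    have hNR : (2 : ℝ) ≤ N := by exact_mod_cast h2
    have hN0 : (0 : ℝ) < N := by linarith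
    have hlog : 0 < Real.log N := Real.log_pos (by linarith)
    have hpc : (0 : ℝ) < (Nat.primeCounting N : ℝ) := lt_of_lt_of_le (by positivity) h3
    have h4 : (1 : ℝ) ≤ (N : ℝ) ^ (1 / A) := Real.one_le_rpow (by linarith) (by positivity)
    have h5 : 3 + 2 * (N : ℝ) ^ (1 / A) + Z.card ≤ (3 + 2 + Z.card) * (N : ℝ) ^ (1 / A) := by
      have : (0 : ℝ) ≤ Z.card := Nat.cast_nonneg _
      nlinarith
    rw [div_le_iff₀ hpc]
    have h6 : (N : ℝ) ^ (1 - 1 / A) * (N : ℝ) ^ (1 / A) = N := by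
      rw [← Real.rpow_add hN0]
      simp
    have h7 : (0 : ℝ) < (N : ℝ) ^ (1 - 1 / A) := by positivity
    have h8 : 0 < (N : ℝ) ^ (1 / A) := by positivity
    calc (3 + 2 * (N : ℝ) ^ (1 / A) + Z.card) * (3 * n) ≤
          ((3 + 2 + Z.card) * (N : ℝ) ^ (1 / A)) * (3 * n) :=
          mul_le_mul_of_nonneg_right h5 (by positivity)
      _ = (3 + 2 + (Z.card : ℝ)) * (3 * n) * 4 * (Real.log (N : ℝ) / (N : ℝ) ^ (1 - 1 / A)) *
            ((N : ℝ) / (4 * Real.log N)) := by
          have : (N : ℝ) / (4 * Real.log N) =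
              (N : ℝ) ^ (1 - 1 / A) * (N : ℝ) ^ (1 / A) / (4 * Real.log N) := by rw [h6]
          rw [this]
          field_simp
      _ ≤ _ := mul_le_mul_of_nonneg_left h3 (by positivity)
  have h2 : Tendsto (fun N : ℕ => (ν : ℝ) * ((n : ℝ) + 1) ^ 2 / (Nat.primeCounting N : ℝ)) atTop
      (𝓝 0) := Tendsto.div_atTop tendsto_const_nhds pc_atTop
  have hε : (0 : ℝ) < 1 / (16 * k) := by positivity
  obtain ⟨N₀, hN₀⟩ := eventually_atTop.1 ((((mean_unif (F := K) hε).and
    (h1.eventually_lt_const hε)).and ((tendsto_one (K := K)).eventually_lt_const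
    (show (1 : ℝ) < 2 by norm_num))).and ((h2.eventually_lt_const hε).and
    (pc_atTop.eventually_gt_atTop 0)))
  refine ⟨N₀, fun N hN S _ κ hκ σ hσ x m c hm hlogm hc hsum f hf1 hf2 => ?_⟩
  obtain ⟨⟨⟨hU, hE⟩, hT⟩, hW, hπ⟩ := hN₀ N hN
  set π := (Nat.primeCounting N : ℝ) with hπd
  have hfl : ∀ y z, |f y - f z| ≤ dist y z := fun y z => by
    have := hf1.dist_le_mul y z
    rwa [NNReal.coe_one, one_mul, Real.dist_eq] at this
  have hσl : ∀ y z, dist (σ y) (σ z) ≤ dist y z := fun y z => by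
    have := hσ.dist_le_mul y z
    rwa [NNReal.coe_one, one_mul] at this
  have heb : ∀ y, |(f y + f (σ y)) / 2| ≤ 1 := fun y => by
    have e1 := abs_le.1 (hf2 y)
    have e2 := abs_le.1 (hf2 (σ y))
    rw [abs_le]
    constructor <;> linarith [e1.1, e1.2, e2.1, e2.2]
  have hob : ∀ y, |(f y - f (σ y)) / 2| ≤ 1 := fun y => by
    have e1 := abs_le.1 (hf2 y)
    have e2 := abs_le.1 (hf2 (σ y))
    rw [abs_le]
    constructor <;> linarith [e1.1, e1.2, e2.1, e2.2]
  have hol : ∀ y z, |(f y - f (σ y)) / 2 - (f z - f (σ z)) / 2| ≤ dist y z := fun y z => by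
    have e1 := abs_le.1 (hfl y z)
    have e2 := abs_le.1 ((hfl (σ y) (σ z)).trans (hσl y z))
    rw [abs_le]
    constructor <;> linarith [e1.1, e1.2, e2.1, e2.2]
  have k1 := hU (fun v => f (c v)) fun v => hf2 _
  have k2 := hU (fun v => (f (x v) + f (σ (x v))) / 2) fun v => heb _
  -- the approximation of the odd part
  obtain ⟨r, hr, hgr⟩ := approx (K := K) hκ (fun y => (f y - f (σ y)) / 2) hob hol (xh x)
  set s : Nat.Primes → ℝ := fun p => (jacobiSym m (p : ℕ) : ℝ) with hs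
  have hs1 : ∀ p, |s p| ≤ 1 := by
    intro p
    rw [hs]
    simp only
    rcases jacobiSym.trichotomy m (p : ℕ) with h | h | h <;> rw [h] <;> norm_num
  -- the exceptional primes
  set E : Finset Nat.Primes := Finset.subtype Nat.Prime (2 * m).natAbs.primeFactors ∪
    Z.image below with hEd
  have hm2 : (2 * m).natAbs ≠ 0 := by
    rw [Int.natAbs_ne_zero]
    exact mul_ne_zero two_ne_zero hm
  have hEc : (E.card : ℝ) ≤ 3 + 2 * (N : ℝ) ^ (1 / A) + Z.card := by
    have a1 : E.card ≤ (2 * m).natAbs.primeFactors.card + Z.card := by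
      refine (Finset.card_union_le _ _).trans (add_le_add ?_ Finset.card_image_le)
      exact le_trans (le_of_eq (Finset.card_subtype Nat.Prime _)) (Finset.card_filter_le _ _)
    have a2 := card_pf hm2
    have a3 : Real.log ((2 * m).natAbs : ℝ) = Real.log 2 + Real.log (m.natAbs : ℝ) := by
      rw [Int.natAbs_mul]
      push_cast
      rw [Real.log_mul (by norm_num) (by
        have : m.natAbs ≠ 0 := Int.natAbs_ne_zero.2 hm
        simpa using hm)]
    have a4 : Real.log 2 < 1 := by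
      have := Real.log_two_lt_d9
      linarith
    have a5 : (E.card : ℝ) ≤ ((2 * m).natAbs.primeFactors.card : ℝ) + Z.card := by
      exact_mod_cast a1
    rw [a3] at a2
    linarith
  have hexc : ∀ p, p ∉ E → ∀ u : 𝓞 K →+* ZMod (p : ℕ),
      f (c (kerPrime p u).1.1) - (f (x (kerPrime p u).1.1) + f (σ (x (kerPrime p u).1.1))) / 2 -
        s p * ((f (x (kerPrime p u).1.1) - f (σ (x (kerPrime p u).1.1))) / 2) = 0 := by
    intro p hp u
    have b1 : ¬ ((p : ℕ) : ℤ) ∣ 2 * m := by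
      intro h
      apply hp
      refine Finset.mem_union_left _ ?_
      have h9 : (p : ℕ) ∈ (2 * m).natAbs.primeFactors :=
        Nat.mem_primeFactors.2 ⟨p.2, Int.natCast_dvd.1 h, hm2⟩
      exact (Finset.mem_subtype (p := Nat.Prime)).2 h9
    have b2 : (kerPrime p u).1.1 ∉ Z := by
      intro h
      apply hp
      exact Finset.mem_union_right _ (Finset.mem_image.2 ⟨_, h, (kerPrime p u).1.2⟩)
    rcases twZ_ker hc p b1 u b2 with ⟨h3, h4⟩ | ⟨h3, h4⟩
    · rw [hs, h4]
      simp only [h3]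
      push_cast
      ring
    · rw [hs, h4]
      simp only [h3]
      push_cast
      ring
  set φ : Nat.Primes → ℝ := fun p => ∑ u : 𝓞 K →+* ZMod (p : ℕ),
    (f (c (kerPrime p u).1.1) - (f (x (kerPrime p u).1.1) + f (σ (x (kerPrime p u).1.1))) / 2 -
      s p * ((f (x (kerPrime p u).1.1) - f (σ (x (kerPrime p u).1.1))) / 2)) with hφ
  have k3 : |Av N φ| ≤ 1 / (16 * k) := by
    have b1 := Av_supp N φ (3 * n) (fun p => by
      rw [hφ]
      refine (Finset.abs_sum_le_sum_abs _ _).trans ?_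
      have b2 : ∀ u : 𝓞 K →+* ZMod (p : ℕ), |f (c (kerPrime p u).1.1) -
          (f (x (kerPrime p u).1.1) + f (σ (x (kerPrime p u).1.1))) / 2 -
          s p * ((f (x (kerPrime p u).1.1) - f (σ (x (kerPrime p u).1.1))) / 2)| ≤ 3 := by
        intro u
        have e1 := hf2 (c (kerPrime p u).1.1)
        have e2 := heb (x (kerPrime p u).1.1)
        have e3 : |s p * ((f (x (kerPrime p u).1.1) - f (σ (x (kerPrime p u).1.1))) / 2)| ≤ 1 := by
          rw [abs_mul]
          exact mul_le_one₀ (hs1 p) (abs_nonneg _) (hob _)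
        rw [abs_le] at e1 e2 e3 ⊢
        constructor <;> linarith [e1.1, e1.2, e2.1, e2.2, e3.1, e3.2]
      refine (Finset.sum_le_sum fun u _ => b2 u).trans ?_
      rw [Finset.sum_const, nsmul_eq_mul, Finset.card_univ, mul_comm]
      refine mul_le_mul_of_nonneg_left ?_ (by norm_num)
      exact_mod_cast card_hom_le p) E (fun p hp => by
      rw [hφ]
      exact Finset.sum_eq_zero fun u _ => hexc p hp u)
    refine b1.trans ((div_le_div_of_nonneg_right ?_ hπ.le).trans hE.le)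
    exact mul_le_mul_of_nonneg_right hEc (by positivity)
  -- the odd part
  have k4 : Av N φ = (Av N fun p => ∑ u : 𝓞 K →+* ZMod (p : ℕ), f (c (kerPrime p u).1.1)) -
      (Av N fun p => ∑ u : 𝓞 K →+* ZMod (p : ℕ),
        (f (x (kerPrime p u).1.1) + f (σ (x (kerPrime p u).1.1))) / 2) -
      Av N fun p => s p * ∑ u : 𝓞 K →+* ZMod (p : ℕ),
        ((f (x (kerPrime p u).1.1) - f (σ (x (kerPrime p u).1.1))) / 2) := by
    rw [← Av_sub, ← Av_sub]
    congr 1
    funext p
    rw [hφ]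
    simp only
    rw [Finset.sum_sub_distrib, Finset.sum_sub_distrib, Finset.mul_sum]
  have k5 : |Av N fun p => s p * ∑ u : 𝓞 K →+* ZMod (p : ℕ),
      ((f (x (kerPrime p u).1.1) - f (σ (x (kerPrime p u).1.1))) / 2)| ≤
      1 / (16 * k) + 1 / (16 * k) + 2 * (1 / (16 * k)) := by
    -- split
    have c1 : ∀ p : Nat.Primes, s p * ∑ u : 𝓞 K →+* ZMod (p : ℕ),
        ((f (x (kerPrime p u).1.1) - f (σ (x (kerPrime p u).1.1))) / 2) =
        (∑ i : Fin ν, r i * (s p * bc κ x i p)) + s p * ∑ u : 𝓞 K →+* ZMod (p : ℕ),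
          ((f (x (kerPrime p u).1.1) - f (σ (x (kerPrime p u).1.1))) / 2 -
            r (κ (x (kerPrime p u).1.1))) := by
      intro p
      have c2 : ∑ u : 𝓞 K →+* ZMod (p : ℕ), r (κ (x (kerPrime p u).1.1)) =
          ∑ i : Fin ν, r i * bc κ x i p := by
        rw [← Finset.sum_fiberwise_of_maps_to (s := Finset.univ) (t := Finset.univ)
          (g := fun u : 𝓞 K →+* ZMod (p : ℕ) => κ (x (kerPrime p u).1.1))
          (fun u _ => Finset.mem_univ _)]
        refine Finset.sum_congr rfl fun i _ => ?_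
        have c3 : ∀ u ∈ Finset.univ.filter (fun u : 𝓞 K →+* ZMod (p : ℕ) =>
            κ (x (kerPrime p u).1.1) = i), r (κ (x (kerPrime p u).1.1)) = r i := by
          intro u hu
          rw [(Finset.mem_filter.1 hu).2]
        rw [Finset.sum_congr rfl c3, Finset.sum_const, nsmul_eq_mul, mul_comm]
        rfl
      rw [Finset.sum_sub_distrib, c2, mul_sub]
      have c4 : ∑ i : Fin ν, r i * (s p * bc κ x i p) = s p * ∑ i : Fin ν, r i * bc κ x i p := by
        rw [Finset.mul_sum]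
        exact Finset.sum_congr rfl fun i _ => by ring
      rw [c4]
      ring
    have c5 : (Av N fun p => s p * ∑ u : 𝓞 K →+* ZMod (p : ℕ),
        ((f (x (kerPrime p u).1.1) - f (σ (x (kerPrime p u).1.1))) / 2)) =
        (∑ i : Fin ν, r i * ((∑ p ∈ PR N, s p * bc κ x i p) / π)) +
        Av N fun p => s p * ∑ u : 𝓞 K →+* ZMod (p : ℕ),
          ((f (x (kerPrime p u).1.1) - f (σ (x (kerPrime p u).1.1))) / 2 -
            r (κ (x (kerPrime p u).1.1))) := by
      have c6 : (fun p : Nat.Primes => s p * ∑ u : 𝓞 K →+* ZMod (p : ℕ),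
        ((f (x (kerPrime p u).1.1) - f (σ (x (kerPrime p u).1.1))) / 2)) = fun p =>
        (∑ i ∈ (Finset.univ : Finset (Fin ν)), r i * (s p * bc κ x i p)) +
          s p * ∑ u : 𝓞 K →+* ZMod (p : ℕ),
          ((f (x (kerPrime p u).1.1) - f (σ (x (kerPrime p u).1.1))) / 2 -
            r (κ (x (kerPrime p u).1.1))) := funext c1
      rw [c6, Av_add, Av_sum]
      congr 1
      refine Finset.sum_congr rfl fun i _ => ?_
      rw [Av_mul]
      rfl
    rw [c5]
    refine (abs_add_le _ _).trans (add_le_add ?_ ?_)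
    · refine (Finset.abs_sum_le_sum_abs _ _).trans ?_
      have c7 : ∀ i ∈ (Finset.univ : Finset (Fin ν)), |r i * ((∑ p ∈ PR N, s p * bc κ x i p) / π)| ≤
          ((n : ℝ) + 1) ^ 2 * (1 / (16 * k * ((ν : ℝ) + 1) * ((n : ℝ) + 1) ^ 2) * π + 1) / π := by
        intro i _
        rw [abs_mul, abs_div, abs_of_pos hπ]
        have c8 := sum_bc κ x i m N (hsum i)
        calc |r i| * (|∑ p ∈ PR N, s p * bc κ x i p| / π) ≤
              1 * (|∑ p ∈ PR N, s p * bc κ x i p| / π) :=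
              mul_le_mul_of_nonneg_right (hr i) (by positivity)
          _ = |∑ p ∈ PR N, s p * bc κ x i p| / π := one_mul _
          _ ≤ _ := div_le_div_of_nonneg_right c8 hπ.le
      refine (Finset.sum_le_sum c7).trans ?_
      rw [Finset.sum_const, Finset.card_univ, Fintype.card_fin, nsmul_eq_mul]
      have c9 : (ν : ℝ) * (((n : ℝ) + 1) ^ 2 *
          (1 / (16 * k * ((ν : ℝ) + 1) * ((n : ℝ) + 1) ^ 2) * π + 1) / π) =
          (ν : ℝ) / ((ν : ℝ) + 1) * (1 / (16 * k)) + (ν : ℝ) * ((n : ℝ) + 1) ^ 2 / π := by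
        field_simp
      rw [c9]
      refine add_le_add ?_ hW.le
      have c10 : (ν : ℝ) / ((ν : ℝ) + 1) ≤ 1 := by
        rw [div_le_one (by positivity)]
        linarith
      calc (ν : ℝ) / ((ν : ℝ) + 1) * (1 / (16 * k)) ≤ 1 * (1 / (16 * k)) :=
            mul_le_mul_of_nonneg_right c10 hε.le
        _ = _ := one_mul _
    · refine (abs_Av_le _ _).trans ?_
      have d1 : (Av N fun p => |s p * ∑ u : 𝓞 K →+* ZMod (p : ℕ),
          ((f (x (kerPrime p u).1.1) - f (σ (x (kerPrime p u).1.1))) / 2 -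
            r (κ (x (kerPrime p u).1.1)))|) ≤
          Av N fun p => 1 / (16 * (k : ℝ)) * ∑ u : 𝓞 K →+* ZMod (p : ℕ), (1 : ℝ) := by
        refine Av_mono fun p => ?_
        rw [abs_mul]
        calc |s p| * |∑ u : 𝓞 K →+* ZMod (p : ℕ),
              ((f (x (kerPrime p u).1.1) - f (σ (x (kerPrime p u).1.1))) / 2 -
                r (κ (x (kerPrime p u).1.1)))| ≤ 1 * ∑ u : 𝓞 K →+* ZMod (p : ℕ),
              1 / (16 * (k : ℝ)) := by
              refine mul_le_mul (hs1 p) ?_ (abs_nonneg _) zero_le_one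
              refine (Finset.abs_sum_le_sum_abs _ _).trans (Finset.sum_le_sum fun u _ => ?_)
              exact hgr ⟨p, u⟩
          _ = _ := by
              rw [one_mul, Finset.mul_sum]
              simp
      refine d1.trans ?_
      rw [Av_mul]
      have d2 : (Av N fun p => ∑ u : 𝓞 K →+* ZMod (p : ℕ), (1 : ℝ)) = AK (K := K) N fun _ => 1 :=
        rfl
      rw [d2, mul_comm]
      exact mul_le_mul_of_nonneg_right hT.le hε.le
  -- conclusion
  have hfin : (1 : ℝ) / k = 16 * (1 / (16 * k)) := by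
    field_simp
  rw [hfin]
  set e := (1 : ℝ) / (16 * k) with he
  rw [k4] at k3
  rw [abs_le] at k1 k2 k3 k5
  rw [abs_lt]
  constructor <;> linarith [k1.1, k1.2, k2.1, k2.2, k3.1, k3.2, k5.1, k5.2]

end

end Pool.Agent.Q11.LQ
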